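import Pool.Agent.H402R2.T4bA

set_option autoImplicit false

/-! Project MD (helper473), piece M4A: shift of a vertical line of integration, decay of `Γ`. -/

namespace Pool.Agent.Run7.h894.MD

open Complex Filter Topology MeasureTheory Set

lemma int_exp_neg_abs : Integrable (fun y : ℝ => Real.exp (-|y|)) := by
  simpa using H402R2.T4b.int_exp_abs (a := 1) one_pos

/-- integrability on a vertical line -/
lemma vert_integrable {H : ℂ → ℂ} {c K : ℝ} (hd : ∀ z : ℂ, z.re = c → DifferentiableAt ℂ H z)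
    (hb : ∀ z : ℂ, z.re = c → 1 ≤ |z.im| → ‖H z‖ ≤ K * Real.exp (-|z.im|)) :
    Integrable (fun t : ℝ => H ((c : ℂ) + t * I)) := by
  have him : ∀ t : ℝ, ((c : ℂ) + t * I).im = t := by intro t; simp
  have hre : ∀ t : ℝ, ((c : ℂ) + t * I).re = c := by intro t; simp
  have hcont : Continuous (fun t : ℝ => H ((c : ℂ) + t * I)) := by
    rw [continuous_iff_continuousAt]
    intro t
    have h1 : ContinuousAt H ((c : ℂ) + t * I) := (hd _ (hre t)).continuousAt
    have h2 : ContinuousAt (fun t : ℝ => (c : ℂ) + t * I) t := by fun_prop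
    exact ContinuousAt.comp (g := H) (f := fun t : ℝ => (c : ℂ) + t * I) h1 h2
  obtain ⟨B, hB⟩ := (isCompact_Icc (a := (-1 : ℝ)) (b := 1)).exists_bound_of_continuousOn
    hcont.continuousOn
  have hB0 : 0 ≤ B := (norm_nonneg _).trans (hB 0 (by constructor <;> norm_num))
  refine Integrable.mono' (int_exp_neg_abs.const_mul (|K| + B * Real.exp 1))
    hcont.aestronglyMeasurable (Eventually.of_forall fun t => ?_)
  by_cases ht : 1 ≤ |t|
  · have h3 := hb ((c : ℂ) + t * I) (hre t) (by rw [him]; exact ht)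
    rw [him] at h3
    refine h3.trans (mul_le_mul_of_nonneg_right ?_ (Real.exp_pos _).le)
    have : 0 ≤ B * Real.exp 1 := by positivity
    linarith [le_abs_self K]
  · push Not at ht
    have h3 := hB t (abs_le.1 ht.le)
    have h4 : 1 ≤ Real.exp 1 * Real.exp (-|t|) := by
      rw [← Real.exp_add]
      exact Real.one_le_exp (by linarith)
    have h5 : 0 ≤ |K| * Real.exp (-|t|) := by positivity
    calc ‖H ((c : ℂ) + t * I)‖ ≤ B := h3
      _ = B * 1 := (mul_one B).symm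
      _ ≤ B * (Real.exp 1 * Real.exp (-|t|)) := mul_le_mul_of_nonneg_left h4 hB0
      _ ≤ |K| * Real.exp (-|t|) + B * (Real.exp 1 * Real.exp (-|t|)) := by linarith
      _ = _ := by ring

/-- shift of a vertical line of integration -/
theorem vert_shift {H : ℂ → ℂ} {a b K : ℝ} (hab : a ≤ b)
    (hd : ∀ z : ℂ, a ≤ z.re → z.re ≤ b → DifferentiableAt ℂ H z)
    (hb : ∀ z : ℂ, a ≤ z.re → z.re ≤ b → 1 ≤ |z.im| → ‖H z‖ ≤ K * Real.exp (-|z.im|)) :
    ∫ t : ℝ, H ((a : ℂ) + t * I) = ∫ t : ℝ, H ((b : ℂ) + t * I) := by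
  have ia : Integrable (fun t : ℝ => H ((a : ℂ) + t * I)) :=
    vert_integrable (K := K) (fun z hz => hd z hz.ge (hz.le.trans hab))
      (fun z hz => hb z hz.ge (hz.le.trans hab))
  have ib : Integrable (fun t : ℝ => H ((b : ℂ) + t * I)) :=
    vert_integrable (K := K) (fun z hz => hd z (hab.trans hz.ge) hz.le)
      (fun z hz => hb z (hab.trans hz.ge) hz.le)
  have hrect : ∀ T : ℝ, (∫ x in a..b, H (x + ((-T : ℝ) : ℂ) * I)) - (∫ x in a..b, H (x + (T : ℂ) * I)) +
      I • (∫ y in (-T)..T, H ((b : ℂ) + y * I)) - I • (∫ y in (-T)..T, H ((a : ℂ) + y * I)) = 0 := by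
    intro T
    have h1 := Complex.integral_boundary_rect_eq_zero_of_differentiableOn H
      ((a : ℂ) + ((-T : ℝ) : ℂ) * I) ((b : ℂ) + (T : ℂ) * I) (by
        intro z hz
        have h2 := hz.1
        have e1 : ((a : ℂ) + ((-T : ℝ) : ℂ) * I).re = a := by simp
        have e2 : ((b : ℂ) + (T : ℂ) * I).re = b := by simp
        rw [e1, e2, uIcc_of_le hab] at h2
        exact (hd z h2.1 h2.2).differentiableWithinAt)
    have e1 : ((a : ℂ) + ((-T : ℝ) : ℂ) * I).re = a := by simp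
    have e2 : ((b : ℂ) + (T : ℂ) * I).re = b := by simp
    have e3 : ((a : ℂ) + ((-T : ℝ) : ℂ) * I).im = -T := by simp
    have e4 : ((b : ℂ) + (T : ℂ) * I).im = T := by simp
    rw [e1, e2, e3, e4] at h1
    exact h1
  have hA : Tendsto (fun T : ℝ => ∫ y in (-T)..T, H ((a : ℂ) + y * I)) atTop
      (𝓝 (∫ t : ℝ, H ((a : ℂ) + t * I))) :=
    intervalIntegral_tendsto_integral ia tendsto_neg_atTop_atBot tendsto_id
  have hB : Tendsto (fun T : ℝ => ∫ y in (-T)..T, H ((b : ℂ) + y * I)) atTop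
      (𝓝 (∫ t : ℝ, H ((b : ℂ) + t * I))) :=
    intervalIntegral_tendsto_integral ib tendsto_neg_atTop_atBot tendsto_id
  have hE : Tendsto (fun T : ℝ => K * Real.exp (-T) * |b - a|) atTop (𝓝 0) := by
    have h2 := Real.tendsto_exp_atBot.comp tendsto_neg_atTop_atBot
    have h3 := (h2.const_mul K).mul_const |b - a|
    simpa using h3
  have hor : ∀ (T : ℝ) (τ : ℝ), 1 ≤ T → |τ| = T →
      ‖∫ x in a..b, H (x + (τ : ℂ) * I)‖ ≤ K * Real.exp (-T) * |b - a| := by
    intro T τ hT hτ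
    apply intervalIntegral.norm_integral_le_of_norm_le_const
    intro x hx
    rw [uIoc_of_le hab] at hx
    have e1 : ((x : ℂ) + τ * I).re = x := by simp
    have e2 : ((x : ℂ) + τ * I).im = τ := by simp
    have h3 := hb ((x : ℂ) + τ * I) (by rw [e1]; exact hx.1.le) (by rw [e1]; exact hx.2)
      (by rw [e2, hτ]; exact hT)
    rw [e2, hτ] at h3
    exact h3
  have hV1 : Tendsto (fun T : ℝ => ∫ x in a..b, H (x + ((-T : ℝ) : ℂ) * I)) atTop (𝓝 0) := by
    refine squeeze_zero_norm' ?_ hE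
    filter_upwards [eventually_ge_atTop 1] with T hT
    exact hor T (-T) hT (by rw [abs_neg, abs_of_nonneg (by linarith)])
  have hV2 : Tendsto (fun T : ℝ => ∫ x in a..b, H (x + (T : ℂ) * I)) atTop (𝓝 0) := by
    refine squeeze_zero_norm' ?_ hE
    filter_upwards [eventually_ge_atTop 1] with T hT
    exact hor T T hT (abs_of_nonneg (by linarith))
  have hlim := ((hV1.sub hV2).add (hB.const_smul I)).sub (hA.const_smul I)
  simp only [hrect] at hlim
  have h0 := tendsto_nhds_unique hlim tendsto_const_nhds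
  rw [sub_zero, zero_add, sub_eq_zero] at h0
  have := smul_right_injective ℂ I_ne_zero h0
  exact this.symm

/-- decay of `Γ` in the strip `1/4 ≤ Re u ≤ 3` -/
lemma gamma_decay : ∃ C : ℝ, 0 < C ∧ ∀ u : ℂ, 1 / 4 ≤ u.re → u.re ≤ 3 →
    ‖Complex.Gamma u‖ ≤ C * Real.exp (-(5 / 4) * |u.im|) := by
  have hpi := Real.pi_gt_three
  have hθ : (5 / 4 : ℝ) < Real.pi / 2 := by linarith
  have hc : 0 < Real.cos (5 / 4) := Real.cos_pos_of_mem_Ioo ⟨by linarith, hθ⟩
  have hcont : ContinuousOn Real.Gamma (Icc (1 / 4 : ℝ) 3) := by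
    intro x hx
    refine (Real.differentiableAt_Gamma fun m => ?_).continuousAt.continuousWithinAt
    have h1 : (0 : ℝ) < x := by linarith [hx.1]
    have h2 : (0 : ℝ) ≤ m := Nat.cast_nonneg m
    intro h
    linarith
  obtain ⟨B, hB⟩ := (isCompact_Icc (a := (1 / 4 : ℝ)) (b := 3)).exists_bound_of_continuousOn hcont
  have hB0 : 0 ≤ B := (norm_nonneg _).trans (hB 1 (by constructor <;> norm_num))
  refine ⟨B / Real.cos (5 / 4) ^ (3 : ℝ) + 1, by positivity, fun u h1 h2 => ?_⟩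
  have hu0 : 0 < u.re := by linarith
  have h3 := Pool.Agent.Helper242.KK.norm_Gamma_le_of_angle (σ := u.re) (v := u.im) (θ := 5 / 4) hu0
    (by norm_num) hθ
  rw [Complex.re_add_im] at h3
  refine h3.trans ?_
  have h4 : Real.Gamma u.re ≤ B := (le_abs_self _).trans (hB u.re ⟨h1, h2⟩)
  have h5 : Real.cos (5 / 4) ^ (3 : ℝ) ≤ Real.cos (5 / 4) ^ u.re :=
    Real.rpow_le_rpow_of_exponent_ge hc (Real.cos_le_one _) h2
  have h6 : 0 < Real.cos (5 / 4) ^ (3 : ℝ) := by positivity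
  have hG := Real.Gamma_pos_of_pos hu0
  have h7 : Real.Gamma u.re / Real.cos (5 / 4) ^ u.re ≤ B / Real.cos (5 / 4) ^ (3 : ℝ) :=
    div_le_div₀ hB0 h4 h6 h5
  calc Real.exp (-(5 / 4) * |u.im|) * Real.Gamma u.re / Real.cos (5 / 4) ^ u.re =
        Real.Gamma u.re / Real.cos (5 / 4) ^ u.re * Real.exp (-(5 / 4) * |u.im|) := by ring
    _ ≤ (B / Real.cos (5 / 4) ^ (3 : ℝ) + 1) * Real.exp (-(5 / 4) * |u.im|) :=
        mul_le_mul_of_nonneg_right (by linarith) (Real.exp_pos _).le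

lemma quad_exp {x : ℝ} (hx : 0 ≤ x) : (1 + x) ^ 2 * Real.exp (-(5 / 4) * x) ≤ 32 * Real.exp (-x) := by
  have h1 := Real.quadratic_le_exp_of_nonneg (x := x / 4) (by positivity)
  have h2 : (1 + x) ^ 2 ≤ 32 * Real.exp (x / 4) := by nlinarith
  have h3 : Real.exp (-x) = Real.exp (x / 4) * Real.exp (-(5 / 4) * x) := by
    rw [← Real.exp_add]
    congr 1
    ring
  rw [h3, ← mul_assoc]
  exact mul_le_mul_of_nonneg_right h2 (Real.exp_pos _).le

/-- `Γ(u) g(u)` for an entire `g` vanishing at `0` -/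
theorem gamma_shift {g : ℂ → ℂ} (hg : Differentiable ℂ g) (h0 : g 0 = 0) {c A : ℝ} (hc : 0 < c)
    (hc' : c ≤ 3 / 4) (hA : 0 ≤ A)
    (hb : ∀ u : ℂ, -c ≤ u.re → u.re ≤ 2 → ‖g u‖ ≤ A * (1 + |u.im|) ^ 2) :
    ∫ t : ℝ, g (((-c : ℝ) : ℂ) + t * I) * Complex.Gamma (((-c : ℝ) : ℂ) + t * I) =
      ∫ t : ℝ, g (((2 : ℝ) : ℂ) + t * I) * Complex.Gamma (((2 : ℝ) : ℂ) + t * I) := by
  obtain ⟨C, hC0, hC⟩ := gamma_decay
  have hds : Differentiable ℂ (dslope g 0) := by
    rw [← differentiableOn_univ]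
    exact (Complex.differentiableOn_dslope univ_mem).2 hg.differentiableOn
  have e : ∀ u : ℂ, u ≠ 0 → dslope g 0 u * Complex.Gamma (u + 1) = g u * Complex.Gamma u := by
    intro u hu
    rw [dslope_of_ne _ hu, slope_def_field, h0, sub_zero, sub_zero, Complex.Gamma_add_one u hu]
    field_simp
  have key := vert_shift (H := fun u => dslope g 0 u * Complex.Gamma (u + 1)) (a := -c) (b := 2)
    (K := A * C * 32) (by linarith) ?_ ?_
  · have e1 : ∀ t : ℝ, dslope g 0 (((-c : ℝ) : ℂ) + t * I) * Complex.Gamma ((((-c : ℝ) : ℂ) + t * I) + 1) =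
        g (((-c : ℝ) : ℂ) + t * I) * Complex.Gamma (((-c : ℝ) : ℂ) + t * I) := by
      intro t
      apply e
      intro h
      have := congrArg Complex.re h
      simp at this
      linarith
    have e2 : ∀ t : ℝ, dslope g 0 (((2 : ℝ) : ℂ) + t * I) * Complex.Gamma ((((2 : ℝ) : ℂ) + t * I) + 1) =
        g (((2 : ℝ) : ℂ) + t * I) * Complex.Gamma (((2 : ℝ) : ℂ) + t * I) := by
      intro t
      apply e
      intro h
      have := congrArg Complex.re h
      simp at this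
    simp only [e1, e2] at key
    exact key
  · intro z hz1 hz2
    refine hds.differentiableAt.mul ?_
    have hG : DifferentiableAt ℂ Complex.Gamma (z + 1) := by
      apply Complex.differentiableAt_Gamma
      intro m hm
      have := congrArg Complex.re hm
      simp at this
      have h2 : (0 : ℝ) ≤ m := Nat.cast_nonneg m
      linarith
    exact hG.comp z (by fun_prop)
  · intro z hz1 hz2 hz3
    have hz0 : z ≠ 0 := by
      rintro rfl
      simp at hz3
      linarith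
    have h1 : 1 ≤ ‖z‖ := hz3.trans (Complex.abs_im_le_norm z)
    have h2 : ‖dslope g 0 z‖ ≤ ‖g z‖ := by
      rw [dslope_of_ne _ hz0, slope_def_field, h0, sub_zero, sub_zero, norm_div]
      exact div_le_self (norm_nonneg _) h1
    have h3 := hC (z + 1) (by simp; linarith) (by simp; linarith)
    have e3 : (z + 1).im = z.im := by simp
    rw [e3] at h3
    have h4 := hb z hz1 hz2
    rw [norm_mul]
    calc ‖dslope g 0 z‖ * ‖Complex.Gamma (z + 1)‖ ≤
          (A * (1 + |z.im|) ^ 2) * (C * Real.exp (-(5 / 4) * |z.im|)) :=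
          mul_le_mul (h2.trans h4) h3 (norm_nonneg _) (by positivity)
      _ = A * C * ((1 + |z.im|) ^ 2 * Real.exp (-(5 / 4) * |z.im|)) := by ring
      _ ≤ A * C * (32 * Real.exp (-|z.im|)) :=
          mul_le_mul_of_nonneg_left (quad_exp (abs_nonneg _)) (by positivity)
      _ = _ := by ring

/-- decay of `Γ` on the lines `Re u = -c` -/
lemma gamma_neg {c : ℝ} (hc : 0 < c) (hc' : c ≤ 3 / 4) {C : ℝ}
    (hC : ∀ u : ℂ, 1 / 4 ≤ u.re → u.re ≤ 3 → ‖Complex.Gamma u‖ ≤ C * Real.exp (-(5 / 4) * |u.im|)) (t : ℝ) :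
    ‖Complex.Gamma (((-c : ℝ) : ℂ) + t * I)‖ ≤ C / c * Real.exp (-(5 / 4) * |t|) := by
  set u : ℂ := ((-c : ℝ) : ℂ) + t * I with hu
  have hre : u.re = -c := by rw [hu]; simp
  have him : u.im = t := by rw [hu]; simp
  have hu0 : u ≠ 0 := by
    intro h
    rw [h] at hre
    simp at hre
    linarith
  have h1 : Complex.Gamma u = Complex.Gamma (u + 1) / u := by
    rw [Complex.Gamma_add_one u hu0]
    field_simp
  have h2 : c ≤ ‖u‖ := by
    have := Complex.abs_re_le_norm u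
    rw [hre, abs_neg, abs_of_pos hc] at this
    exact this
  have h3 := hC (u + 1) (by simp [hre]; linarith) (by simp [hre]; linarith)
  have e3 : (u + 1).im = t := by simp [him]
  rw [e3] at h3
  rw [h1, norm_div]
  calc ‖Complex.Gamma (u + 1)‖ / ‖u‖ ≤ (C * Real.exp (-(5 / 4) * |t|)) / c :=
        div_le_div₀ ((norm_nonneg _).trans h3) h3 hc h2
    _ = _ := by ring

lemma gamma_neg_cont {c : ℝ} (hc : 0 < c) (hc' : c ≤ 3 / 4) :
    Continuous (fun t : ℝ => Complex.Gamma (((-c : ℝ) : ℂ) + t * I)) := by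
  rw [continuous_iff_continuousAt]
  intro t
  have h1 : ContinuousAt Complex.Gamma (((-c : ℝ) : ℂ) + t * I) := by
    apply (Complex.differentiableAt_Gamma _ _).continuousAt
    intro m hm
    have := congrArg Complex.re hm
    simp at this
    rcases Nat.eq_zero_or_pos m with h | h
    · subst h
      simp at this
      linarith
    · have h2 : (1 : ℝ) ≤ m := by exact_mod_cast h
      linarith
  exact ContinuousAt.comp (f := fun t : ℝ => ((-c : ℝ) : ℂ) + t * I) h1 (by fun_prop)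

lemma gamma_two_cont : Continuous (fun t : ℝ => Complex.Gamma (((2 : ℝ) : ℂ) + t * I)) :=
  H402R2.T4b.Gamma_line_cont (c := 2) (by norm_num)

/-- `Y^u` -/
lemma norm_Ypow {Y : ℝ} (hY : 1 ≤ Y) (u : ℂ) : ‖(Y : ℂ) ^ u‖ = Y ^ u.re :=
  Complex.norm_cpow_eq_rpow_re_of_pos (by linarith) u

/-- Mellin-Barnes on the line `Re u = 2` -/
lemma mb_two {Y ω : ℝ} (hω : 0 < ω) (hY : Y = ω⁻¹) :
    ∫ t : ℝ, (Y : ℂ) ^ (((2 : ℝ) : ℂ) + t * I) * Complex.Gamma (((2 : ℝ) : ℂ) + t * I) =
      2 * Real.pi * ((Real.exp (-ω) : ℝ) : ℂ) := by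
  have h := H402R2.T4b.cahen (ω := (ω : ℂ)) (by simpa using hω) (c := 2) (by norm_num)
  rw [Complex.ofReal_exp, Complex.ofReal_neg, ← h, hY]
  simp

end Pool.Agent.Run7.h894.MD
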