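import Pool.Agent.Run7.h473.MD.Iface
import Pool.Agent.N879.QM.Afs

set_option autoImplicit false

namespace Pool.Agent.Run7.h894.MD

open Complex Filter Topology MeasureTheory Set
open Pool.Agent.N879.QM Pool.Agent.Run7.h473.MD Pool.Agent

theorem t_LBD : S_LBD := by
  intro d hd
  have : NeZero d := ⟨by have := hd.1; omega⟩
  have hχ : ch 1 d ≠ 1 := (Is_ch hd).2.2.1
  have e : LL 1 d = (ch 1 d).LFunction := by
    funext z
    exact LL_eq 1 z
  refine ⟨?_, ?_⟩
  · rw [e]
    exact DirichletCharacter.differentiable_LFunction hχ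
  intro s hs
  have h1 := H307R2.LFunction_eq hχ (le_refl 1) hs
  have hs0 : s ≠ 0 := by
    intro h
    rw [h] at hs
    simp at hs
  have hi1 : IntegrableOn (fun t : ℝ => (t : ℂ) ^ (-(s + 1))) (Ioi (1 : ℝ)) := by
    have := H307R2.TM_integrable (le_refl 1) (E := fun _ => (1 : ℂ)) measurable_const (B := 1)
      (fun t => by simp) hs
    simpa using this
  have hi2 := H307R2.TM_integrable (le_refl 1) (H307R2.Ech_measurable (ch 1 d) 1)
    (H307R2.Ech_norm_le hχ 1) hs
  have hint : ∫ t in Ioi (1 : ℝ), (t : ℂ) ^ (-(s + 1)) = 1 / s := by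
    rw [integral_Ioi_cpow_of_lt (by simp; linarith) one_pos]
    have : -(s + 1) + 1 = -s := by ring
    rw [this]
    simp
  have h2 : H307R2.TM 1 (H307R2.Ech (ch 1 d) 0) s = 1 / s + H307R2.TM 1 (H307R2.Ech (ch 1 d) 1) s := by
    rw [← hint]
    unfold H307R2.TM
    rw [Nat.cast_one] at hi2 ⊢
    rw [← integral_add hi1 hi2]
    refine setIntegral_congr_fun measurableSet_Ioi fun t ht => ?_
    have ht' : (1 : ℝ) < t := ht
    have hfl : 1 ≤ ⌊t⌋₊ := Nat.le_floor (by simpa using ht'.le)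
    have hE : H307R2.Ech (ch 1 d) 0 t = 1 + H307R2.Ech (ch 1 d) 1 t := by
      unfold H307R2.Ech
      have hun : Finset.Ioc 0 ⌊t⌋₊ = insert 1 (Finset.Ioc 1 ⌊t⌋₊) := by
        ext k
        simp only [Finset.mem_Ioc, Finset.mem_insert]
        omega
      rw [hun, Finset.sum_insert (by simp)]
      simp
    simp only [hE]
    ring
  have h3 : (ch 1 d).LFunction s = s * H307R2.TM 1 (H307R2.Ech (ch 1 d) 0) s := by
    rw [h1, h2]
    simp only [Finset.Icc_self, Finset.sum_singleton, Nat.cast_one, one_cpow, mul_one]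
    rw [map_one, mul_add, mul_one_div_cancel hs0]
  rw [LL_eq, h3, norm_mul]
  have h4 := H307R2.TM_norm_le (le_refl 1) (H307R2.Ech_norm_le hχ 0) hs
  rw [Nat.cast_one, Real.one_rpow] at h4
  calc ‖s‖ * ‖H307R2.TM 1 (H307R2.Ech (ch 1 d) 0) s‖ ≤ ‖s‖ * (d * (1 / s.re)) :=
        mul_le_mul_of_nonneg_left h4 (norm_nonneg _)
    _ = d * ‖s‖ / s.re := by ring

end Pool.Agent.Run7.h894.MD
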