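import Pool.Agent.Run7.h894.MD.M4A

set_option autoImplicit false

/-! Project MD (helper473), piece M4D. -/

namespace Pool.Agent.Run7.h894.MD

open Complex Filter Topology MeasureTheory Set
open Pool.Agent.N879.QM Pool.Agent.Run7.h473.MD Pool.Agent

noncomputable section

lemma pow_exp_bound (n : ℕ) : ∃ C : ℝ, 0 < C ∧ ∀ v : ℝ,
    (1 + |v|) ^ n * Real.exp (-|v|) ≤ C * Real.exp (-(1 / 2 * |v|)) := by
  refine ⟨2 ^ n * (n.factorial : ℝ) * Real.exp (1 / 2), by positivity, fun v => ?_⟩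
  have h1 := Real.pow_div_factorial_le_exp ((1 + |v|) / 2) (by positivity) n
  have hf : (0 : ℝ) < n.factorial := by exact_mod_cast Nat.factorial_pos n
  rw [div_le_iff₀ hf, div_pow, div_le_iff₀ (by positivity)] at h1
  have h2 : Real.exp ((1 + |v|) / 2) * Real.exp (-|v|) = Real.exp (1 / 2) * Real.exp (-(1 / 2 * |v|)) := by
    rw [← Real.exp_add, ← Real.exp_add]
    congr 1
    ring
  calc (1 + |v|) ^ n * Real.exp (-|v|) ≤
        (Real.exp ((1 + |v|) / 2) * n.factorial * 2 ^ n) * Real.exp (-|v|) :=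
        mul_le_mul_of_nonneg_right h1 (Real.exp_pos _).le
    _ = 2 ^ n * n.factorial * (Real.exp ((1 + |v|) / 2) * Real.exp (-|v|)) := by ring
    _ = _ := by rw [h2]; ring

lemma int_w {F : ℝ → ℝ} (hF : Continuous F) {D : ℝ} (hD : 0 ≤ D) {n : ℕ}
    (hb : ∀ v, |F v| ≤ D * (1 + |v|) ^ n) : Integrable fun v : ℝ => F v * Real.exp (-|v|) := by
  obtain ⟨C, hC, h⟩ := pow_exp_bound n
  refine Integrable.mono' ((H402R2.T4b.int_exp_abs (a := 1 / 2) (by norm_num)).const_mul (D * C))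
    (hF.mul (by fun_prop)).aestronglyMeasurable (Eventually.of_forall fun v => ?_)
  rw [Real.norm_eq_abs, abs_mul, abs_of_pos (Real.exp_pos _)]
  calc |F v| * Real.exp (-|v|) ≤ D * (1 + |v|) ^ n * Real.exp (-|v|) :=
        mul_le_mul_of_nonneg_right (hb v) (Real.exp_pos _).le
    _ = D * ((1 + |v|) ^ n * Real.exp (-|v|)) := by ring
    _ ≤ D * (C * Real.exp (-(1 / 2 * |v|))) := mul_le_mul_of_nonneg_left (h v) hD
    _ = _ := by ring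

/-- moments of the weight -/
def PP' (n : ℕ) : ℝ := ∫ v : ℝ, (1 + |v|) ^ n * Real.exp (-|v|)

lemma PP'_nonneg (n : ℕ) : 0 ≤ PP' n := integral_nonneg fun v => by positivity

lemma PP'_int (n : ℕ) : Integrable fun v : ℝ => (1 + |v|) ^ n * Real.exp (-|v|) :=
  int_w (F := fun v => (1 + |v|) ^ n) (by fun_prop) (D := 1) zero_le_one (n := n)
    (fun v => by rw [one_mul, abs_of_nonneg (by positivity)])

lemma cs_w {g : ℝ → ℝ} (h1 : Integrable fun v : ℝ => g v * Real.exp (-|v|))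
    (h2 : Integrable fun v : ℝ => g v ^ 2 * Real.exp (-|v|)) :
    (∫ v : ℝ, g v * Real.exp (-|v|)) ^ 2 ≤
      (∫ v : ℝ, Real.exp (-|v|)) * ∫ v : ℝ, g v ^ 2 * Real.exp (-|v|) := by
  set G := ∫ v : ℝ, g v * Real.exp (-|v|) with hG
  set W := ∫ v : ℝ, Real.exp (-|v|) with hW
  set G2 := ∫ v : ℝ, g v ^ 2 * Real.exp (-|v|) with hG2
  have key : ∀ x : ℝ, 0 ≤ W * (x * x) + (-2 * G) * x + G2 := by
    intro x
    have h3 : 0 ≤ ∫ v : ℝ, (g v - x) ^ 2 * Real.exp (-|v|) := integral_nonneg fun v => by positivity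
    have h4 : ∫ v : ℝ, (g v - x) ^ 2 * Real.exp (-|v|) = W * (x * x) + (-2 * G) * x + G2 := by
      have e : ∀ v : ℝ, (g v - x) ^ 2 * Real.exp (-|v|) =
          (g v ^ 2 * Real.exp (-|v|) - (2 * x) * (g v * Real.exp (-|v|))) + x ^ 2 * Real.exp (-|v|) := by
        intro v
        ring
      simp only [e]
      have k1 : Integrable fun v : ℝ => 2 * x * (g v * Real.exp (-|v|)) := h1.const_mul (2 * x)
      have k2 : Integrable fun v : ℝ => g v ^ 2 * Real.exp (-|v|) - 2 * x * (g v * Real.exp (-|v|)) :=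
        h2.sub k1
      have k3 : Integrable fun v : ℝ => x ^ 2 * Real.exp (-|v|) := int_exp_neg_abs.const_mul (x ^ 2)
      rw [integral_add k2 k3, integral_sub h2 k1, integral_const_mul, integral_const_mul]
      ring
    rw [← h4]
    exact h3
  have := discrim_le_zero key
  unfold discrim at this
  nlinarith

/-- linear growth on vertical lines -/
lemma L_lin {q : ℕ} (hLb : ∀ s : ℂ, 0 < s.re → ‖LL 1 q s‖ ≤ q * ‖s‖ / s.re) {a : ℝ} (ha : 0 < a) (t v : ℝ) :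
    ‖LL 1 q ((a : ℂ) + I * ((t + v : ℝ) : ℂ))‖ ≤ q * (a + |t| + 1) / a * (1 + |v|) := by
  have e1 : ((a : ℂ) + I * ((t + v : ℝ) : ℂ)).re = a := by simp
  have h1 := hLb ((a : ℂ) + I * ((t + v : ℝ) : ℂ)) (by rw [e1]; exact ha)
  rw [e1] at h1
  have h2 : ‖(a : ℂ) + I * ((t + v : ℝ) : ℂ)‖ ≤ (a + |t| + 1) * (1 + |v|) := by
    refine (norm_add_le _ _).trans ?_
    rw [norm_mul, Complex.norm_I, one_mul, Complex.norm_real, Complex.norm_real, Real.norm_eq_abs,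
      Real.norm_eq_abs, abs_of_pos ha]
    have h3 := abs_add_le t v
    have h4 := abs_nonneg t
    have h5 := abs_nonneg v
    nlinarith
  refine h1.trans ?_
  rw [div_mul_eq_mul_div, mul_assoc]
  exact div_le_div_of_nonneg_right (mul_le_mul_of_nonneg_left h2 (Nat.cast_nonneg q)) ha.le

/-- the functional equation in absolute value -/
lemma fe_abs (hGAM : S_GAM) (hFEQ : S_FEQ) {κ : ℝ} (hκ : 0 < κ) (hκ8 : κ ≤ 1 / 8) :
    ∃ (C : ℝ) (B : ℕ), 0 < C ∧ ∀ q : ℕ, Is 1 q → ∀ w : ℝ,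
      ‖LL 1 q (((1 / 2 - κ : ℝ) : ℂ) + I * (w : ℂ))‖ ≤
        C * (q : ℝ) ^ κ * (1 + |w|) ^ B * ‖LL 1 q (((1 / 2 + κ : ℝ) : ℂ) + I * ((-w : ℝ) : ℂ))‖ := by
  obtain ⟨C, B, h⟩ := hGAM.2 (1 / 2 - κ) (1 / 2 - κ) (by linarith) (by linarith)
  refine ⟨|C| + 1, B, by positivity, fun q hq w => ?_⟩
  have hq0 : (0 : ℝ) < q := by
    have := hq.1
    exact_mod_cast (by omega : 0 < q)
  set s : ℂ := ((1 / 2 - κ : ℝ) : ℂ) + I * (w : ℂ) with hs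
  have hre : s.re = 1 / 2 - κ := by rw [hs]; simp
  have him : s.im = w := by rw [hs]; simp
  have h1 := hFEQ q hq s (by rw [hre]; linarith) (by rw [hre]; linarith)
  have h2 := h s hre.ge hre.le
  rw [him] at h2
  have h3 : ‖(q : ℂ) ^ (1 / 2 - s)‖ = (q : ℝ) ^ κ := by
    rw [Complex.norm_natCast_cpow_of_pos (by exact_mod_cast hq0)]
    congr 1
    rw [Complex.sub_re, hre]
    norm_num
  have h4 : 1 - s = ((1 / 2 + κ : ℝ) : ℂ) + I * ((-w : ℝ) : ℂ) := by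
    rw [hs]
    apply Complex.ext
    · simp
      ring
    · simp
  rw [h1, norm_mul, norm_mul, h3, h4]
  refine mul_le_mul_of_nonneg_right ?_ (norm_nonneg _)
  have h5 : 0 ≤ (1 + |w|) ^ B := by positivity
  have h6 : ‖gam s‖ ≤ (|C| + 1) * (1 + |w|) ^ B :=
    h2.trans (mul_le_mul_of_nonneg_right (by linarith [le_abs_self C]) h5)
  calc (q : ℝ) ^ κ * ‖gam s‖ ≤ (q : ℝ) ^ κ * ((|C| + 1) * (1 + |w|) ^ B) :=
        mul_le_mul_of_nonneg_left h6 (by positivity)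
    _ = _ := by ring

/-- the fourth moment on the line `1/2 + κ` -/
def MM (κ X t : ℝ) : ℝ := ∑ q ∈ Q 1 X, ‖LL 1 q (((1 / 2 + κ : ℝ) : ℂ) + I * (t : ℂ))‖ ^ 4

lemma mem_Q {X : ℝ} {q : ℕ} (h : q ∈ Q 1 X) : Is 1 q ∧ (q : ℝ) ≤ X := by
  classical
  unfold Q at h
  rw [Finset.mem_filter, Finset.mem_Ico] at h
  exact ⟨h.2, (Nat.lt_ceil.1 h.1.2).le⟩

lemma card_Q {X : ℝ} (hX : 1 ≤ X) : ((Q 1 X).card : ℝ) ≤ X := by
  classical
  unfold Q
  have h1 : ((Finset.Ico 2 ⌈X⌉₊).filter (Is 1)).card ≤ ⌈X⌉₊ - 2 := by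
    refine (Finset.card_filter_le _ _).trans ?_
    rw [Nat.card_Ico]
  have h2 := Nat.ceil_lt_add_one (by linarith : (0 : ℝ) ≤ X)
  rcases le_or_gt 2 ⌈X⌉₊ with h | h
  · have h3 : (((⌈X⌉₊ - 2 : ℕ)) : ℝ) = (⌈X⌉₊ : ℝ) - 2 := by
      rw [Nat.cast_sub h]
      norm_num
    have h4 : ((((Finset.Ico 2 ⌈X⌉₊).filter (Is 1)).card : ℕ) : ℝ) ≤ ((⌈X⌉₊ - 2 : ℕ) : ℝ) := by
      exact_mod_cast h1
    linarith
  · have h3 : ((Finset.Ico 2 ⌈X⌉₊).filter (Is 1)).card = 0 := by omega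
    rw [h3]
    simp
    linarith

lemma one_add_abs_add (t v : ℝ) : 1 + |t + v| ≤ (1 + |t|) * (1 + |v|) := by
  have h1 := abs_add_le t v
  have h2 : 0 ≤ |t| * |v| := by positivity
  nlinarith

/-- the basic inequality -/
lemma step1 (hLBD : S_LBD) (hGAM : S_GAM) (hFEQ : S_FEQ) (hM4A : S_M4A) {κ : ℝ} (hκ : 0 < κ)
    (hκ8 : κ ≤ 1 / 8) : ∃ (C : ℝ) (B : ℕ), 0 < C ∧ ∀ (A : ℕ) (X m Y : ℝ) (z : ℂ), 1 ≤ X → 0 ≤ m →
      (∀ t, MM κ X t ≤ m * (1 + |t|) ^ A) → 1 / 2 + κ ≤ z.re → z.re ≤ 9 / 8 → 1 ≤ Y →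
      ∑ q ∈ Q 1 X, ‖LL 1 q z‖ ^ 4 ≤ 2 * ∑ q ∈ Q 1 X, ‖SS q z Y‖ ^ 2 +
        C * PP' (4 * B + A) * (Y ^ (-(2 * κ))) ^ 2 * (X ^ κ) ^ 4 * (1 + |z.im|) ^ (4 * B + A) * m := by
  obtain ⟨c, hc0, hc⟩ := hM4A κ hκ hκ8
  obtain ⟨C2, B, hC2, hfe⟩ := fe_abs hGAM hFEQ hκ hκ8
  set W := ∫ v : ℝ, Real.exp (-|v|) with hW
  have hW0 : 0 ≤ W := integral_nonneg fun v => (Real.exp_pos _).le
  refine ⟨2 * c ^ 2 * W * C2 ^ 4 + 1, B, by positivity, fun A X m Y z hX hm hM hz1 hz2 hY => ?_⟩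
  have hY0 : 0 < Y := by linarith
  set t := z.im with ht
  set β := Y ^ (-(2 * κ)) with hβ
  have hβ0 : 0 ≤ β := by positivity
  set f : ℕ → ℝ → ℝ := fun q v => ‖LL 1 q (((1 / 2 - κ : ℝ) : ℂ) + I * ((t + v : ℝ) : ℂ))‖ with hf
  have hcont : ∀ q, Is 1 q → Continuous (f q) := by
    intro q hq
    exact ((hLBD q hq).1.continuous.comp (by fun_prop)).norm
  have hlin : ∀ q, Is 1 q → ∃ D : ℝ, 0 ≤ D ∧ ∀ v, f q v ≤ D * (1 + |v|) := by
    intro q hq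
    refine ⟨q * ((1 / 2 - κ) + |t| + 1) / (1 / 2 - κ), ?_, fun v => ?_⟩
    · have : 0 < 1 / 2 - κ := by linarith
      positivity
    · exact L_lin (hLBD q hq).2 (a := 1 / 2 - κ) (by linarith) t v
  have hi : ∀ q, Is 1 q → ∀ n : ℕ, Integrable fun v => f q v ^ n * Real.exp (-|v|) := by
    intro q hq n
    obtain ⟨D, hD, h⟩ := hlin q hq
    refine int_w ((hcont q hq).pow n) (D := D ^ n) (by positivity) (n := n) fun v => ?_
    have h0 : 0 ≤ f q v := norm_nonneg _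
    rw [abs_of_nonneg (by positivity), ← mul_pow]
    exact pow_le_pow_left₀ h0 (h v) n
  have h1 : ∀ q ∈ Q 1 X, ‖LL 1 q z‖ ^ 4 ≤ 2 * ‖SS q z Y‖ ^ 2 +
      2 * c ^ 2 * β ^ 2 * W * ∫ v : ℝ, f q v ^ 4 * Real.exp (-|v|) := by
    intro q hq
    obtain ⟨hq1, -⟩ := mem_Q hq
    have h2 := hc q z Y hq1 hz1 hz2 hY
    have h3 := cs_w (g := fun v => f q v ^ 2) (hi q hq1 2) (by
      have := hi q hq1 4
      refine this.congr (Eventually.of_forall fun v => ?_)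
      simp only
      ring)
    have e4 : ∫ v : ℝ, (f q v ^ 2) ^ 2 * Real.exp (-|v|) = ∫ v : ℝ, f q v ^ 4 * Real.exp (-|v|) := by
      congr 1
      funext v
      ring
    rw [e4] at h3
    have h5 : 0 ≤ ∫ v : ℝ, f q v ^ 2 * Real.exp (-|v|) := integral_nonneg fun v => by positivity
    have h6 : ‖LL 1 q z‖ ^ 2 ≤ ‖SS q z Y‖ + c * β * ∫ v : ℝ, f q v ^ 2 * Real.exp (-|v|) := h2
    set I2 := ∫ v : ℝ, f q v ^ 2 * Real.exp (-|v|) with hI2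
    have h7 : (‖LL 1 q z‖ ^ 2) ^ 2 ≤ (‖SS q z Y‖ + c * β * I2) ^ 2 :=
      pow_le_pow_left₀ (by positivity) h6 2
    have h8 : (‖SS q z Y‖ + c * β * I2) ^ 2 ≤ 2 * ‖SS q z Y‖ ^ 2 + 2 * (c * β * I2) ^ 2 := by
      nlinarith [sq_nonneg (‖SS q z Y‖ - c * β * I2)]
    have h9 : 2 * (c * β * I2) ^ 2 ≤ 2 * c ^ 2 * β ^ 2 * (W * ∫ v : ℝ, f q v ^ 4 * Real.exp (-|v|)) := by
      have : 2 * (c * β * I2) ^ 2 = 2 * c ^ 2 * β ^ 2 * I2 ^ 2 := by ring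
      rw [this]
      exact mul_le_mul_of_nonneg_left h3 (by positivity)
    calc ‖LL 1 q z‖ ^ 4 = (‖LL 1 q z‖ ^ 2) ^ 2 := by ring
      _ ≤ 2 * ‖SS q z Y‖ ^ 2 + 2 * (c * β * I2) ^ 2 := h7.trans h8
      _ ≤ 2 * ‖SS q z Y‖ ^ 2 + 2 * c ^ 2 * β ^ 2 * (W * ∫ v : ℝ, f q v ^ 4 * Real.exp (-|v|)) := by
          linarith
      _ = _ := by ring
  have h2 : ∑ q ∈ Q 1 X, ∫ v : ℝ, f q v ^ 4 * Real.exp (-|v|) ≤
      C2 ^ 4 * (X ^ κ) ^ 4 * (1 + |t|) ^ (4 * B + A) * m * PP' (4 * B + A) := by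
    rw [← integral_finsetSum _ (fun q hq => hi q (mem_Q hq).1 4)]
    unfold PP'
    rw [← integral_const_mul]
    refine integral_mono (integrable_finsetSum _ (fun q hq => hi q (mem_Q hq).1 4))
      ((PP'_int (4 * B + A)).const_mul _) fun v => ?_
    simp only
    have h3 : ∀ q ∈ Q 1 X, f q v ^ 4 * Real.exp (-|v|) ≤
        C2 ^ 4 * (X ^ κ) ^ 4 * ((1 + |t + v|) ^ B) ^ 4 * Real.exp (-|v|) *
          ‖LL 1 q (((1 / 2 + κ : ℝ) : ℂ) + I * ((-(t + v) : ℝ) : ℂ))‖ ^ 4 := by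
      intro q hq
      obtain ⟨hq1, hq2⟩ := mem_Q hq
      have h4 := hfe q hq1 (t + v)
      have h5 : (q : ℝ) ^ κ ≤ X ^ κ := Real.rpow_le_rpow (Nat.cast_nonneg q) hq2 hκ.le
      have h6 : f q v ≤ C2 * X ^ κ * (1 + |t + v|) ^ B *
          ‖LL 1 q (((1 / 2 + κ : ℝ) : ℂ) + I * ((-(t + v) : ℝ) : ℂ))‖ := by
        refine h4.trans (mul_le_mul_of_nonneg_right ?_ (norm_nonneg _))
        exact mul_le_mul_of_nonneg_right (mul_le_mul_of_nonneg_left h5 hC2.le) (by positivity)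
      have h7 := pow_le_pow_left₀ (norm_nonneg _) h6 4
      calc f q v ^ 4 * Real.exp (-|v|) ≤ (C2 * X ^ κ * (1 + |t + v|) ^ B *
          ‖LL 1 q (((1 / 2 + κ : ℝ) : ℂ) + I * ((-(t + v) : ℝ) : ℂ))‖) ^ 4 * Real.exp (-|v|) :=
            mul_le_mul_of_nonneg_right h7 (Real.exp_pos _).le
        _ = _ := by ring
    refine (Finset.sum_le_sum h3).trans ?_
    rw [← Finset.mul_sum]
    have h4 := hM (-(t + v))
    rw [abs_neg] at h4
    unfold MM at h4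
    have hτ : (1 + |t + v|) ^ (4 * B + A) ≤ (1 + |t|) ^ (4 * B + A) * (1 + |v|) ^ (4 * B + A) := by
      rw [← mul_pow]
      exact pow_le_pow_left₀ (by positivity) (one_add_abs_add t v) _
    calc C2 ^ 4 * (X ^ κ) ^ 4 * ((1 + |t + v|) ^ B) ^ 4 * Real.exp (-|v|) *
          ∑ q ∈ Q 1 X, ‖LL 1 q (((1 / 2 + κ : ℝ) : ℂ) + I * ((-(t + v) : ℝ) : ℂ))‖ ^ 4 ≤
        C2 ^ 4 * (X ^ κ) ^ 4 * ((1 + |t + v|) ^ B) ^ 4 * Real.exp (-|v|) * (m * (1 + |t + v|) ^ A) :=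
          mul_le_mul_of_nonneg_left h4 (by positivity)
      _ = C2 ^ 4 * (X ^ κ) ^ 4 * Real.exp (-|v|) * m * (1 + |t + v|) ^ (4 * B + A) := by
          rw [pow_add, pow_mul']
          ring
      _ ≤ C2 ^ 4 * (X ^ κ) ^ 4 * Real.exp (-|v|) * m *
          ((1 + |t|) ^ (4 * B + A) * (1 + |v|) ^ (4 * B + A)) :=
          mul_le_mul_of_nonneg_left hτ (by positivity)
      _ = _ := by ring
  have h3 := Finset.sum_le_sum h1
  rw [Finset.sum_add_distrib, ← Finset.mul_sum, ← Finset.mul_sum] at h3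
  have h4 : 2 * c ^ 2 * β ^ 2 * W * ∑ q ∈ Q 1 X, ∫ v : ℝ, f q v ^ 4 * Real.exp (-|v|) ≤
      2 * c ^ 2 * β ^ 2 * W * (C2 ^ 4 * (X ^ κ) ^ 4 * (1 + |t|) ^ (4 * B + A) * m * PP' (4 * B + A)) :=
    mul_le_mul_of_nonneg_left h2 (by positivity)
  have h5 : 0 ≤ PP' (4 * B + A) * β ^ 2 * (X ^ κ) ^ 4 * (1 + |t|) ^ (4 * B + A) * m := by
    have := PP'_nonneg (4 * B + A)
    positivity
  calc ∑ q ∈ Q 1 X, ‖LL 1 q z‖ ^ 4 ≤ 2 * ∑ q ∈ Q 1 X, ‖SS q z Y‖ ^ 2 +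
        2 * c ^ 2 * β ^ 2 * W * (C2 ^ 4 * (X ^ κ) ^ 4 * (1 + |t|) ^ (4 * B + A) * m * PP' (4 * B + A)) := by
        linarith
    _ = 2 * ∑ q ∈ Q 1 X, ‖SS q z Y‖ ^ 2 + 2 * c ^ 2 * W * C2 ^ 4 *
        (PP' (4 * B + A) * β ^ 2 * (X ^ κ) ^ 4 * (1 + |t|) ^ (4 * B + A) * m) := by ring
    _ ≤ 2 * ∑ q ∈ Q 1 X, ‖SS q z Y‖ ^ 2 + (2 * c ^ 2 * W * C2 ^ 4 + 1) *
        (PP' (4 * B + A) * β ^ 2 * (X ^ κ) ^ 4 * (1 + |t|) ^ (4 * B + A) * m) := by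
        have := mul_le_mul_of_nonneg_right (by linarith : 2 * c ^ 2 * W * C2 ^ 4 ≤ 2 * c ^ 2 * W * C2 ^ 4 + 1) h5
        linarith
    _ = _ := by ring

/-- far to the right -/
lemma far_right : ∃ Z : ℝ, 0 ≤ Z ∧ ∀ (q : ℕ) (z : ℂ), Is 1 q → 9 / 8 ≤ z.re → ‖LL 1 q z‖ ≤ Z := by
  have hs : Summable fun n : ℕ => 1 / (n : ℝ) ^ (9 / 8 : ℝ) :=
    Real.summable_one_div_nat_rpow.2 (by norm_num)
  refine ⟨∑' n : ℕ, 1 / (n : ℝ) ^ (9 / 8 : ℝ), tsum_nonneg fun n => by positivity, fun q z hq hz => ?_⟩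
  have : NeZero q := ⟨by have := hq.1; omega⟩
  rw [LL_eq, DirichletCharacter.LFunction_eq_LSeries _ (by linarith)]
  unfold LSeries
  refine tsum_of_norm_bounded hs.hasSum fun n => ?_
  rcases Nat.eq_zero_or_pos n with h | h
  · subst h
    simp
  · have hn1 : (1 : ℝ) ≤ n := by exact_mod_cast h
    rw [LSeries.term_of_ne_zero h.ne', norm_div, Complex.norm_natCast_cpow_of_pos h]
    exact div_le_div₀ zero_le_one (DirichletCharacter.norm_le_one _ _) (by positivity)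
      (Real.rpow_le_rpow_of_exponent_le hn1 hz)

theorem t_M4D (hLBD : S_LBD) (hGAM : S_GAM) (hFEQ : S_FEQ) (hM4A : S_M4A) (hM4C : S_M4C) : S_M4D := by
  intro κ0 ε hκ0 hε
  set κ : ℝ := min κ0 (1 / 8) with hκdef
  have hκ : 0 < κ := lt_min hκ0 (by norm_num)
  have hκ8 : κ ≤ 1 / 8 := min_le_right _ _
  obtain ⟨C1, B, hC1, hstep⟩ := step1 hLBD hGAM hFEQ hM4A hκ hκ8
  obtain ⟨C3, hC3, h3⟩ := hM4C κ (ε / 2) hκ (by positivity)
  obtain ⟨Z, hZ0, hZ⟩ := far_right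
  set B' : ℕ := ⌈(B : ℝ) / κ⌉₊ with hB'
  have hBB' : (B : ℝ) ≤ κ * B' := by
    have := Nat.le_ceil ((B : ℝ) / κ)
    rw [div_le_iff₀ hκ] at this
    linarith
  set A : ℕ := ⌈(B' : ℝ) * (1 + ε)⌉₊ + 4 with hA
  have hA1 : (B' : ℝ) * (1 + ε) ≤ A := by
    have := Nat.le_ceil ((B' : ℝ) * (1 + ε))
    rw [hA]
    push_cast
    linarith
  set P := PP' (4 * B + A) with hP
  have hP0 : 0 ≤ P := PP'_nonneg _
  set Λ : ℝ := (2 * C1 * P + 1) ^ (1 / (4 * κ)) with hΛ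
  have hb1 : 1 ≤ 2 * C1 * P + 1 := by
    have : 0 ≤ 2 * C1 * P := by positivity
    linarith
  have hΛ1 : 1 ≤ Λ := Real.one_le_rpow hb1 (by positivity)
  have hΛ0 : 0 < Λ := by linarith
  have hΛ2 : C1 * P * (Λ ^ (-(2 * κ))) ^ 2 ≤ 1 / 2 := by
    have e1 : (Λ ^ (-(2 * κ))) ^ 2 = (2 * C1 * P + 1)⁻¹ := by
      rw [← Real.rpow_natCast, ← Real.rpow_mul hΛ0.le, hΛ, ← Real.rpow_mul (by linarith)]
      rw [← Real.rpow_neg_one]
      congr 1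
      push_cast
      field_simp
      ring
    rw [e1, ← div_eq_mul_inv, div_le_iff₀ (by linarith)]
    linarith
  set C5 : ℝ := 4 * C3 * Λ ^ (1 + ε) with hC5
  have hC50 : 0 ≤ C5 := by positivity
  refine ⟨Z ^ 4 + 2 * C5, A, fun X z hX hz => ?_⟩
  have hX0 : 0 < X := by linarith
  have hXe : X ≤ X ^ (1 + ε) := by
    have := Real.rpow_le_rpow_of_exponent_le hX (by linarith : (1 : ℝ) ≤ 1 + ε)
    rwa [Real.rpow_one] at this
  have hz' : 1 / 2 + κ ≤ z.re := by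
    have := min_le_left κ0 (1 / 8)
    linarith
  have hτ1 : ∀ t : ℝ, 1 ≤ 1 + |t| := fun t => by linarith [abs_nonneg t]
  rcases le_total (9 / 8) z.re with h98 | h98
  · have h4 : ∑ q ∈ Q 1 X, ‖LL 1 q z‖ ^ 4 ≤ ∑ q ∈ Q 1 X, Z ^ 4 :=
      Finset.sum_le_sum fun q hq => pow_le_pow_left₀ (norm_nonneg _) (hZ q z (mem_Q hq).1 h98) 4
    rw [Finset.sum_const, nsmul_eq_mul] at h4
    have h5 := card_Q hX
    have h6 : 1 ≤ (1 + |z.im|) ^ A := one_le_pow₀ (hτ1 _)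
    have h7 : 0 ≤ Z ^ 4 := by positivity
    calc ∑ q ∈ Q 1 X, ‖LL 1 q z‖ ^ 4 ≤ (Q 1 X).card * Z ^ 4 := h4
      _ ≤ X ^ (1 + ε) * Z ^ 4 := mul_le_mul_of_nonneg_right (h5.trans hXe) h7
      _ = Z ^ 4 * 1 * X ^ (1 + ε) := by ring
      _ ≤ (Z ^ 4 + 2 * C5) * (1 + |z.im|) ^ A * X ^ (1 + ε) := by
          apply mul_le_mul_of_nonneg_right _ (by positivity)
          exact mul_le_mul (by linarith) h6 zero_le_one (by positivity)
  -- the main inequality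
  have hmain : ∀ m : ℝ, 0 ≤ m → (∀ t, MM κ X t ≤ m * (1 + |t|) ^ A) → ∀ s : ℂ, 1 / 2 + κ ≤ s.re →
      s.re ≤ 9 / 8 → ∑ q ∈ Q 1 X, ‖LL 1 q s‖ ^ 4 ≤ (C5 * X ^ (1 + ε) + m / 2) * (1 + |s.im|) ^ A := by
    intro m hm hM s hs1 hs2
    set τ : ℝ := 1 + |s.im| with hτ
    have hτ1 : 1 ≤ τ := hτ1 _
    have hτ0 : 0 < τ := by linarith
    have hτB : 1 ≤ τ ^ B' := one_le_pow₀ hτ1
    set Y : ℝ := Λ * X * τ ^ B' with hY
    have hΛX : X ≤ Λ * X := le_mul_of_one_le_left hX0.le hΛ1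
    have hXY : X ≤ Y := hΛX.trans (le_mul_of_one_le_right (by positivity) hτB)
    have hY1 : 1 ≤ Y := hX.trans hXY
    have hY0 : 0 < Y := by linarith
    have h4 := hstep A X m Y s hX hm hM hs1 hs2 hY1
    have h5 := h3 X Y s hX hY1 hs1
    -- first term
    have h6 : (X * Y) ^ (ε / 2) * (X + Y) ≤ 2 * Y ^ (1 + ε) := by
      have h7 : (X * Y) ^ (ε / 2) ≤ Y ^ ε := by
        calc (X * Y) ^ (ε / 2) ≤ (Y * Y) ^ (ε / 2) :=
              Real.rpow_le_rpow (by positivity) (mul_le_mul_of_nonneg_right hXY hY0.le) (by positivity)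
          _ = Y ^ (ε / 2) * Y ^ (ε / 2) := Real.mul_rpow hY0.le hY0.le
          _ = Y ^ ε := by
              rw [← Real.rpow_add hY0]
              congr 1
              ring
      calc (X * Y) ^ (ε / 2) * (X + Y) ≤ Y ^ ε * (2 * Y) :=
            mul_le_mul h7 (by linarith) (by positivity) (by positivity)
        _ = 2 * Y ^ (1 + ε) := by
            rw [Real.rpow_add hY0, Real.rpow_one]
            ring
    have h7 : Y ^ (1 + ε) ≤ Λ ^ (1 + ε) * X ^ (1 + ε) * τ ^ A := by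
      rw [hY, Real.mul_rpow (by positivity) (by positivity), Real.mul_rpow hΛ0.le hX0.le]
      refine mul_le_mul_of_nonneg_left ?_ (by positivity)
      rw [← Real.rpow_natCast, ← Real.rpow_mul hτ0.le, ← Real.rpow_natCast]
      exact Real.rpow_le_rpow_of_exponent_le hτ1 hA1
    have h8 : 2 * ∑ q ∈ Q 1 X, ‖SS q s Y‖ ^ 2 ≤ C5 * X ^ (1 + ε) * τ ^ A := by
      have h9 : ∑ q ∈ Q 1 X, ‖SS q s Y‖ ^ 2 ≤ C3 * (2 * Y ^ (1 + ε)) := by
        refine h5.trans ?_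
        rw [mul_assoc]
        exact mul_le_mul_of_nonneg_left h6 hC3.le
      calc 2 * ∑ q ∈ Q 1 X, ‖SS q s Y‖ ^ 2 ≤ 2 * (C3 * (2 * Y ^ (1 + ε))) := by linarith
        _ = 4 * C3 * Y ^ (1 + ε) := by ring
        _ ≤ 4 * C3 * (Λ ^ (1 + ε) * X ^ (1 + ε) * τ ^ A) := mul_le_mul_of_nonneg_left h7 (by positivity)
        _ = _ := by rw [hC5]; ring
    -- second term
    have h9 : (Y ^ (-(2 * κ))) ^ 2 * (X ^ κ) ^ 4 * τ ^ (4 * B + A) ≤ (Λ ^ (-(2 * κ))) ^ 2 * τ ^ A := by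
      have e1 : Y ^ (-(2 * κ)) = Λ ^ (-(2 * κ)) * X ^ (-(2 * κ)) * (τ ^ B') ^ (-(2 * κ)) := by
        rw [hY, Real.mul_rpow (by positivity) (by positivity), Real.mul_rpow hΛ0.le hX0.le]
      have e2 : (X ^ (-(2 * κ))) ^ 2 * (X ^ κ) ^ 4 = 1 := by
        rw [← Real.rpow_natCast, ← Real.rpow_natCast, ← Real.rpow_mul hX0.le, ← Real.rpow_mul hX0.le,
          ← Real.rpow_add hX0]
        have : -(2 * κ) * ((2 : ℕ) : ℝ) + κ * ((4 : ℕ) : ℝ) = 0 := by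
          push_cast
          ring
        rw [this, Real.rpow_zero]
      have e3 : ((τ ^ B') ^ (-(2 * κ))) ^ 2 * τ ^ (4 * B) ≤ 1 := by
        rw [← Real.rpow_natCast τ B', ← Real.rpow_mul hτ0.le, ← Real.rpow_natCast _ 2,
          ← Real.rpow_mul hτ0.le, ← Real.rpow_natCast τ (4 * B), ← Real.rpow_add hτ0]
        apply Real.rpow_le_one_of_one_le_of_nonpos hτ1
        push_cast
        nlinarith
      calc (Y ^ (-(2 * κ))) ^ 2 * (X ^ κ) ^ 4 * τ ^ (4 * B + A) =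
            (Λ ^ (-(2 * κ))) ^ 2 * ((X ^ (-(2 * κ))) ^ 2 * (X ^ κ) ^ 4) *
              (((τ ^ B') ^ (-(2 * κ))) ^ 2 * τ ^ (4 * B)) * τ ^ A := by
            rw [e1, pow_add]
            ring
        _ ≤ (Λ ^ (-(2 * κ))) ^ 2 * 1 * 1 * τ ^ A := by
            rw [e2]
            apply mul_le_mul_of_nonneg_right _ (by positivity)
            exact mul_le_mul_of_nonneg_left e3 (by positivity)
        _ = _ := by ring
    have h10 : C1 * P * (Y ^ (-(2 * κ))) ^ 2 * (X ^ κ) ^ 4 * τ ^ (4 * B + A) * m ≤ m / 2 * τ ^ A := by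
      calc C1 * P * (Y ^ (-(2 * κ))) ^ 2 * (X ^ κ) ^ 4 * τ ^ (4 * B + A) * m =
            C1 * P * ((Y ^ (-(2 * κ))) ^ 2 * (X ^ κ) ^ 4 * τ ^ (4 * B + A)) * m := by ring
        _ ≤ C1 * P * ((Λ ^ (-(2 * κ))) ^ 2 * τ ^ A) * m := by
            apply mul_le_mul_of_nonneg_right _ hm
            exact mul_le_mul_of_nonneg_left h9 (by positivity)
        _ = C1 * P * (Λ ^ (-(2 * κ))) ^ 2 * (τ ^ A * m) := by ring
        _ ≤ 1 / 2 * (τ ^ A * m) := mul_le_mul_of_nonneg_right hΛ2 (by positivity)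
        _ = _ := by ring
    calc ∑ q ∈ Q 1 X, ‖LL 1 q s‖ ^ 4 ≤ _ := h4
      _ ≤ C5 * X ^ (1 + ε) * τ ^ A + m / 2 * τ ^ A := add_le_add h8 h10
      _ = _ := by ring
  -- the supremum
  have hbd : ∀ t : ℝ, MM κ X t ≤ (∑ q ∈ Q 1 X, (2 * (q : ℝ)) ^ 4) * (1 + |t|) ^ A := by
    intro t
    unfold MM
    rw [Finset.sum_mul]
    refine Finset.sum_le_sum fun q hq => ?_
    have e1 : (((1 / 2 + κ : ℝ) : ℂ) + I * (t : ℂ)).re = 1 / 2 + κ := by simp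
    have h4 := (hLBD q (mem_Q hq).1).2 (((1 / 2 + κ : ℝ) : ℂ) + I * (t : ℂ)) (by rw [e1]; linarith)
    rw [e1] at h4
    have h5 : ‖((1 / 2 + κ : ℝ) : ℂ) + I * (t : ℂ)‖ ≤ 1 + |t| := by
      refine (norm_add_le _ _).trans ?_
      rw [norm_mul, Complex.norm_I, one_mul, Complex.norm_real, Complex.norm_real, Real.norm_eq_abs,
        Real.norm_eq_abs, abs_of_pos (by linarith : 0 < 1 / 2 + κ)]
      linarith
    have h6 : ‖LL 1 q (((1 / 2 + κ : ℝ) : ℂ) + I * (t : ℂ))‖ ≤ 2 * (q : ℝ) * (1 + |t|) := by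
      refine h4.trans ?_
      rw [div_le_iff₀ (by linarith)]
      have hq0 : (0 : ℝ) ≤ q := Nat.cast_nonneg q
      have h7 : (q : ℝ) * ‖((1 / 2 + κ : ℝ) : ℂ) + I * (t : ℂ)‖ ≤ q * (1 + |t|) :=
        mul_le_mul_of_nonneg_left h5 hq0
      have h8 : 0 ≤ (q : ℝ) * (1 + |t|) := by positivity
      nlinarith
    calc ‖LL 1 q (((1 / 2 + κ : ℝ) : ℂ) + I * (t : ℂ))‖ ^ 4 ≤ (2 * (q : ℝ) * (1 + |t|)) ^ 4 :=
          pow_le_pow_left₀ (norm_nonneg _) h6 4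
      _ = (2 * (q : ℝ)) ^ 4 * (1 + |t|) ^ 4 := by ring
      _ ≤ (2 * (q : ℝ)) ^ 4 * (1 + |t|) ^ A := by
          apply mul_le_mul_of_nonneg_left _ (by positivity)
          exact pow_le_pow_right₀ (hτ1 t) (by rw [hA]; omega)
  have hBA : BddAbove (Set.range fun t : ℝ => MM κ X t / (1 + |t|) ^ A) := by
    refine ⟨∑ q ∈ Q 1 X, (2 * (q : ℝ)) ^ 4, ?_⟩
    rintro _ ⟨t, rfl⟩
    simp only
    have : 0 < (1 + |t|) ^ A := by positivity
    rw [div_le_iff₀ this]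
    exact hbd t
  set S : ℝ := ⨆ t : ℝ, MM κ X t / (1 + |t|) ^ A with hS
  have hMM0 : ∀ t, 0 ≤ MM κ X t := fun t => Finset.sum_nonneg fun q _ => by positivity
  have hS0 : 0 ≤ S := by
    refine le_trans ?_ (le_ciSup hBA 0)
    have := hMM0 0
    positivity
  have hSt : ∀ t, MM κ X t ≤ S * (1 + |t|) ^ A := by
    intro t
    have h4 := le_ciSup hBA t
    have : 0 < (1 + |t|) ^ A := by positivity
    rw [← div_le_iff₀ this]
    exact h4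
  have hS1 : S ≤ C5 * X ^ (1 + ε) + S / 2 := by
    refine ciSup_le fun t => ?_
    have h0 : 0 < (1 + |t|) ^ A := by positivity
    rw [div_le_iff₀ h0]
    have h4 := hmain S hS0 hSt (((1 / 2 + κ : ℝ) : ℂ) + I * (t : ℂ)) (by simp) (by simp; linarith)
    have e1 : (((1 / 2 + κ : ℝ) : ℂ) + I * (t : ℂ)).im = t := by simp
    rw [e1] at h4
    exact h4
  have hS2 : S / 2 ≤ C5 * X ^ (1 + ε) := by linarith
  have h4 := hmain S hS0 hSt z hz' h98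
  refine h4.trans ?_
  have h5 : 0 ≤ (1 + |z.im|) ^ A := by positivity
  have h6 : 0 ≤ Z ^ 4 * X ^ (1 + ε) := by positivity
  calc (C5 * X ^ (1 + ε) + S / 2) * (1 + |z.im|) ^ A ≤
        (Z ^ 4 * X ^ (1 + ε) + 2 * (C5 * X ^ (1 + ε))) * (1 + |z.im|) ^ A :=
        mul_le_mul_of_nonneg_right (by linarith) h5
    _ = _ := by ring

end

end Pool.Agent.Run7.h894.MD
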